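import Mathlib

/-!
# Symmetric networks on graphs: definitions
-/

set_option autoImplicit false

namespace Pool.Agent.T9h47.WH

open Finset Equiv Equiv.Perm

/-- A network with values in `K` and inputs indexed by `I`: a finite acyclic graph of gates. A gate
is labelled by an input coordinate, or by an operation: an arbitrary function of the multisets of
the values of its children in each role (roles are natural numbers). -/
structure Net (K I : Type) where
  /-- the gates -/
  Gate : Type
  /-- there are finitely many gates -/
  fin : Fintype Gate
  /-- a rank function witnessing that the network is acyclic -/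
  rank : Gate → ℕ
  /-- a gate is an input gate or an operation gate -/
  lab : Gate → I ⊕ ((ℕ → Multiset K) → K)
  /-- `(r, h) ∈ kids g`: the gate `h` is a child of `g` in the role `r` -/
  kids : Gate → Finset (ℕ × Gate)
  /-- acyclicity -/
  rank_lt : ∀ g p, p ∈ kids g → rank p.2 < rank g

/-- the value of a gate on the input `x` -/
noncomputable def Net.val {K I : Type} (C : Net K I) (x : I → K) (g : C.Gate) : K :=
  match C.lab g with
  | Sum.inl i => x i
  | Sum.inr f => f fun r =>
      ((C.kids g).attach.filter (fun p => p.1.1 = r)).val.map (fun p => C.val x p.1.2)
termination_by C.rank g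
decreasing_by exact C.rank_lt g _ p.2

/-- `α` is an automorphism of the network over the map `π` of the input coordinates: it keeps the
operations and the children with their roles, and moves the labels of the input gates by `π`. -/
structure Net.IsAut {K I : Type} (C : Net K I) (π : I → I) (α : Equiv.Perm C.Gate) : Prop where
  lab : ∀ g, C.lab (α g) = Sum.map π id (C.lab g)
  kids : ∀ g r h, (r, α h) ∈ C.kids (α g) ↔ (r, h) ∈ C.kids g

variable {V : Type} [Fintype V] [DecidableEq V]

/-- the network is symmetric with respect to the set `H` of vertices: every permutation of the
vertices which moves only elements of `H` extends to an automorphism -/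
def SymOn {K : Type} (C : Net K (Sym2 V)) (H : Finset V) : Prop :=
  ∀ σ : Equiv.Perm V, (∀ x, x ∉ H → σ x = x) → ∃ α, C.IsAut (Sym2.map σ) α

open Classical in
/-- the input which describes a graph: `b₁` for the edges, `b₀` for the other pairs -/
noncomputable def graphInput {K : Type} (b₀ b₁ : K) (G : SimpleGraph V) : Sym2 V → K :=
  fun e => if e ∈ G.edgeSet then b₁ else b₀

/-- every vertex belongs to `S` or is adjacent to an element of `S` -/
def Dominates (G : SimpleGraph V) (S : Finset V) : Prop := ∀ v, ∃ w ∈ S, w = v ∨ G.Adj w v

end Pool.Agent.T9h47.WH
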