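import Mathlib
import Pool.Agent.T9h47.SF.Sharp
import Pool.Agent.T9h47.WH.Defs

/-!
# Symmetric networks of arbitrary gates: a sharp indistinguishability theorem
-/

set_option autoImplicit false
set_option linter.unusedSectionVars false

namespace Pool.Agent.T9h47.WH

open Finset Equiv Equiv.Perm
open Pool.Agent.T9h47.SF

theorem papply_inv {α : Type} (f : Equiv.Perm α) (x : α) : f (f⁻¹ x) = x := f.apply_symm_apply x

theorem pinv_apply {α : Type} (f : Equiv.Perm α) (x : α) : f⁻¹ (f x) = x := f.symm_apply_apply x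

variable {K I : Type} (C : Net K I)

theorem Net.val_inl (x : I → K) (g : C.Gate) (i : I) (h : C.lab g = Sum.inl i) :
    C.val x g = x i := by
  rw [Net.val, h]

theorem Net.val_inr (x : I → K) (g : C.Gate) (f : (ℕ → Multiset K) → K)
    (h : C.lab g = Sum.inr f) :
    C.val x g = f fun r => ((C.kids g).filter (fun p => p.1 = r)).val.map
      (fun p => C.val x p.2) := by
  rw [Net.val, h]
  show (f fun r => _) = f fun r => _
  congr 1
  funext r
  have h1 : ((C.kids g).filter (fun p => p.1 = r)).val =
      (((C.kids g).attach.filter (fun p => p.1.1 = r)).val.map (fun p => p.1)) := by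
    have h2 := Finset.attach_val (C.kids g)
    rw [Finset.filter_val, Finset.filter_val]
    conv_lhs => rw [← Multiset.attach_map_val (C.kids g).val]
    rw [Multiset.filter_map]
    rfl
  rw [h1, Multiset.map_map]
  rfl

theorem Net.IsAut.one : C.IsAut id 1 where
  lab g := by
    rw [Equiv.Perm.one_apply]
    cases C.lab g <;> rfl
  kids _ _ _ := Iff.rfl

theorem Net.IsAut.mul {C : Net K I} {π π' : I → I} {α α' : Equiv.Perm C.Gate}
    (h : C.IsAut π α) (h' : C.IsAut π' α') : C.IsAut (π ∘ π') (α * α') where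
  lab g := by
    rw [Equiv.Perm.mul_apply, h.lab, h'.lab]
    cases C.lab g <;> rfl
  kids g r k := by
    rw [Equiv.Perm.mul_apply, Equiv.Perm.mul_apply, h.kids, h'.kids]

theorem Net.IsAut.inv {C : Net K I} {π π' : I → I} {α : Equiv.Perm C.Gate}
    (h : C.IsAut π α) (hπ : π' ∘ π = id) : C.IsAut π' α⁻¹ where
  lab g := by
    have h1 := h.lab (α⁻¹ g)
    rw [papply_inv] at h1
    rw [h1]
    cases C.lab (α⁻¹ g) with
    | inl i =>
      have h2 : π' (π i) = i := congrFun hπ i
      show Sum.inl i = Sum.inl (π' (π i))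
      rw [h2]
    | inr f => rfl
  kids g r k := by
    have h1 := h.kids (α⁻¹ g) r (α⁻¹ k)
    rw [papply_inv, papply_inv] at h1
    exact h1.symm

/-- Evaluation is equivariant. -/
theorem Net.IsAut.val {C : Net K I} {π : I → I} {α : Equiv.Perm C.Gate}
    (h : C.IsAut π α) (x : I → K) : ∀ (n : ℕ) (g : C.Gate), C.rank g < n →
    C.val x (α g) = C.val (x ∘ π) g := by
  classical
  intro n
  induction n with
  | zero => intro g hg; exact absurd hg (Nat.not_lt_zero _)
  | succ n ih =>
    intro g hg
    have hl := h.lab g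
    cases hg' : C.lab g with
    | inl i =>
      rw [hg'] at hl
      rw [C.val_inl x (α g) (π i) hl, C.val_inl _ g i hg']
      rfl
    | inr f =>
      rw [hg'] at hl
      rw [C.val_inr x (α g) f hl, C.val_inr _ g f hg']
      congr 1
      funext r
      have h1 : (C.kids (α g)).filter (fun p => p.1 = r) =
          ((C.kids g).filter (fun p => p.1 = r)).map
            ⟨fun p => (p.1, α p.2), fun p q hpq => by
              have h2 := Prod.ext_iff.1 hpq
              exact Prod.ext h2.1 (α.injective h2.2)⟩ := by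
        ext ⟨r', k⟩
        rw [mem_filter, mem_map]
        constructor
        · rintro ⟨hk, hr⟩
          refine ⟨(r', α⁻¹ k), ?_, ?_⟩
          · rw [mem_filter]
            refine ⟨?_, hr⟩
            rw [← h.kids, papply_inv]
            exact hk
          · show (r', α (α⁻¹ k)) = (r', k)
            rw [papply_inv]
        · rintro ⟨⟨r'', k'⟩, hk', heq⟩
          rw [mem_filter] at hk'
          have h2 := Prod.ext_iff.1 heq
          have h3 : r'' = r' := h2.1
          have h4 : α k' = k := h2.2
          subst h3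
          subst h4
          exact ⟨(h.kids g r'' k').2 hk'.1, hk'.2⟩
      rw [h1, Finset.map_val, Multiset.map_map]
      refine Multiset.map_congr rfl ?_
      rintro ⟨r', k⟩ hk
      have hk' : (r', k) ∈ C.kids g := (mem_filter.1 hk).1
      exact ih k ((C.rank_lt g _ hk').trans_le (Nat.lt_succ_iff.1 hg))

section main

variable {V : Type} [Fintype V] [DecidableEq V]

/-- a set of elements whose pointwise even stabilizer fixes the gate -/
def Supports (ρ : Perm V → I → I) (H : Finset V) (D : Finset V) (g : C.Gate) : Prop :=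
  ∀ σ, EvOn (H \ D) σ → ∃ α, C.IsAut (ρ σ) α ∧ α g = g

theorem exists_supports (ρ : Perm V → I → I) (hρ1 : ρ 1 = id)
    (hρm : ∀ σ τ, ρ (σ * τ) = ρ σ ∘ ρ τ) (H : Finset V)
    (hsym : ∀ σ : Perm V, (∀ x, x ∉ H → σ x = x) → ∃ α, C.IsAut (ρ σ) α) (k r : ℕ)
    (hk : @Fintype.card C.Gate C.fin < H.card.choose k)
    (hr : @Fintype.card C.Gate C.fin < 2 ^ r) (h20 : 20 * r + 5 ≤ H.card) (g : C.Gate) :
    ∃ D ⊆ H, D.card < k ∧ Supports C ρ H D g := by
  classical
  let _ := C.fin
  have hinv : ∀ σ, ρ σ⁻¹ ∘ ρ σ = id := by intro σ; rw [← hρm, inv_mul_cancel, hρ1]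
  let St : Subgroup (Perm V) :=
    { carrier := {b | ∃ α, C.IsAut (ρ b) α ∧ α g = g}
      one_mem' := ⟨1, by rw [hρ1]; exact Net.IsAut.one C, rfl⟩
      mul_mem' := by
        rintro b b' ⟨α, h1, h2⟩ ⟨α', h1', h2'⟩
        refine ⟨α * α', ?_, ?_⟩
        · rw [hρm]; exact h1.mul h1'
        · rw [Equiv.Perm.mul_apply, h2', h2]
      inv_mem' := by
        rintro b ⟨α, h1, h2⟩
        refine ⟨α⁻¹, h1.inv (hinv b), ?_⟩
        rw [Equiv.Perm.inv_eq_iff_eq, h2] }
  have hSt : ∀ b, b ∈ St ↔ ∃ α, C.IsAut (ρ b) α ∧ α g = g := fun b => Iff.rfl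
  have hch : ∀ σ : Perm V, ∃ α : Perm C.Gate, (∀ x, x ∉ H → σ x = x) → C.IsAut (ρ σ) α := by
    intro σ
    by_cases h : ∀ x, x ∉ H → σ x = x
    · obtain ⟨α, hα⟩ := hsym σ h
      exact ⟨α, fun _ => hα⟩
    · exact ⟨1, fun h' => absurd h' h⟩
  choose al hal using hch
  obtain ⟨Δ, h1, h2, h3⟩ := support_sharp St H (fun σ => al σ g) (by
    intro σ τ hσ hτ hστ
    rw [hSt]
    refine ⟨(al σ)⁻¹ * al τ, ?_, ?_⟩
    · rw [hρm]; exact ((hal σ hσ).inv (hinv σ)).mul (hal τ hτ)
    · rw [Equiv.Perm.mul_apply, Equiv.Perm.inv_eq_iff_eq]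
      exact hστ.symm) r k hr h20 hk
  exact ⟨Δ, h1, h2, fun σ hσ => (hSt σ).1 (h3 σ hσ)⟩

/-- **The sharp indistinguishability theorem.** -/
theorem indist (ρ : Perm V → I → I) (hρ1 : ρ 1 = id)
    (hρm : ∀ σ τ, ρ (σ * τ) = ρ σ ∘ ρ τ) (H : Finset V)
    (hsym : ∀ σ : Perm V, (∀ x, x ∉ H → σ x = x) → ∃ α, C.IsAut (ρ σ) α) (k r : ℕ)
    (hk : @Fintype.card C.Gate C.fin < H.card.choose k)
    (hr : @Fintype.card C.Gate C.fin < 2 ^ r) (h20 : 20 * r + 5 ≤ H.card)
    (h2k : 2 * k + 3 ≤ H.card)
    (hI : ∀ (i : I) (D : Finset V), D ⊆ H → D.card < k → (∀ σ, EvOn (H \ D) σ → ρ σ i = i) →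
      ∀ σ : Perm V, (∀ x, x ∉ H → σ x = x) → (∀ d ∈ D, σ d = d) → ρ σ i = i)
    (A B : I → K) (Good : Perm V → Finset V → Prop)
    (hgH : ∀ η D, Good η D → ∀ x, x ∉ H → η x = x)
    (hin : ∀ (η : Perm V) (D : Finset V) (i : I), D ⊆ H → D.card < k → Good η D →
      (∀ σ, EvOn (H \ D) σ → ρ σ i = i) → A i = B (ρ η i))
    (hext : ∀ (η : Perm V) (D : Finset V), D ⊆ H → D.card < k → Good η D →
      ∃ ext : Finset V → Perm V, (∀ D' ⊆ H, D'.card < k → Good (ext D') D' ∧
        (∀ d ∈ D, d ∈ D' → ext D' d = η d) ∧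
        (∀ d' ∈ D', d' ∉ D → ∀ d ∈ D, ext D' d' ≠ η d)) ∧
        ∀ D₁ D₂, D₁ ⊆ H → D₂ ⊆ H → D₁.card < k → D₂.card < k →
          D₁.image (ext D₁) = D₂.image (ext D₂) → ext D₁ = ext D₂) :
    ∀ (n : ℕ) (g : C.Gate), C.rank g < n → ∀ D ⊆ H, D.card < k → Supports C ρ H D g →
      ∀ η θ₁ θ₂ : Perm V, (∀ x, x ∉ H → θ₁ x = x) → (∀ x, x ∉ H → θ₂ x = x) →
      Good η (D.image θ₁) → (∀ d ∈ D, θ₂ d = η (θ₁ d)) →
      C.val (A ∘ ρ θ₁) g = C.val (B ∘ ρ θ₂) g := by
  classical
  intro n
  induction n with
  | zero => intro g hg; exact absurd hg (Nat.not_lt_zero _)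
  | succ n ih =>
    intro g hg D hDH hDk hsup η θ₁ θ₂ hθ₁ hθ₂ hgood hagree
    have hθi₁ : ∀ x, x ∉ H → θ₁⁻¹ x = x := fun x hx => by
      rw [Perm.inv_eq_iff_eq]; exact (hθ₁ x hx).symm
    have hθi₂ : ∀ x, x ∉ H → θ₂⁻¹ x = x := fun x hx => by
      rw [Perm.inv_eq_iff_eq]; exact (hθ₂ x hx).symm
    have hθH₁ : ∀ x, x ∈ H → θ₁ x ∈ H := by
      intro x hx
      by_contra h
      have h1 := hθi₁ _ h
      rw [pinv_apply] at h1
      rw [← h1] at h
      exact h hx
    have hθHi₁ : ∀ x, x ∈ H → θ₁⁻¹ x ∈ H := by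
      intro x hx
      by_contra h
      have h1 := hθ₁ _ h
      rw [papply_inv] at h1
      rw [← h1] at h
      exact h hx
    have hθHi₂ : ∀ x, x ∈ H → θ₂⁻¹ x ∈ H := by
      intro x hx
      by_contra h
      have h1 := hθ₂ _ h
      rw [papply_inv] at h1
      rw [← h1] at h
      exact h hx
    have hD1H : D.image θ₁ ⊆ H := by
      intro x hx
      obtain ⟨d, hd, rfl⟩ := mem_image.1 hx
      exact hθH₁ d (hDH hd)
    have hD1k : (D.image θ₁).card < k := (card_image_le).trans_lt hDk
    cases hl : C.lab g with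
    | inl i =>
      rw [C.val_inl _ g i hl, C.val_inl _ g i hl]
      have hfix : ∀ σ, EvOn (H \ D) σ → ρ σ i = i := by
        intro σ hσ
        obtain ⟨α, hα, hαg⟩ := hsup σ hσ
        have h1 := hα.lab g
        rw [hαg, hl] at h1
        exact (Sum.inl.inj h1).symm
      have hfix' : ∀ σ, EvOn (H \ D.image θ₁) σ → ρ σ (ρ θ₁ i) = ρ θ₁ i := by
        intro σ hσ
        have h1 : EvOn (H \ D) (θ₁⁻¹ * σ * θ₁) := by
          refine ⟨fun x hx => ?_, ?_⟩
          · rw [Perm.mul_apply, Perm.mul_apply]
            have h2 : σ (θ₁ x) = θ₁ x := by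
              apply hσ.1
              intro h3
              rw [mem_sdiff] at h3 hx
              apply hx
              refine ⟨?_, fun hd => h3.2 (mem_image_of_mem _ hd)⟩
              have h4 := hθHi₁ _ h3.1
              rwa [pinv_apply] at h4
            rw [h2, pinv_apply]
          · rw [Perm.sign_mul, Perm.sign_mul, sign_inv, hσ.2, mul_one, Int.units_mul_self]
        have h2 := hfix _ h1
        have h3 : ρ θ₁ (ρ (θ₁⁻¹ * σ * θ₁) i) = ρ σ (ρ θ₁ i) := by
          have h4 : ρ θ₁ ∘ ρ (θ₁⁻¹ * σ * θ₁) = ρ σ ∘ ρ θ₁ := by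
            rw [← hρm, ← hρm]
            congr 1
            group
          exact congrFun h4 i
        rw [← h3, h2]
      have h1 := hin η (D.image θ₁) (ρ θ₁ i) hD1H hD1k hgood hfix'
      show A (ρ θ₁ i) = B (ρ θ₂ i)
      rw [h1]
      congr 1
      have h2 : ρ (θ₂⁻¹ * (η * θ₁)) i = i := by
        refine hI i D hDH hDk hfix _ ?_ ?_
        · intro x hx
          rw [Perm.mul_apply, Perm.mul_apply, hθ₁ x hx, hgH η _ hgood x hx, hθi₂ x hx]
        · intro d hd
          rw [Perm.mul_apply, Perm.mul_apply, ← hagree d hd, pinv_apply]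
      have h3 : ρ θ₂ (ρ (θ₂⁻¹ * (η * θ₁)) i) = ρ η (ρ θ₁ i) := by
        have h4 : ρ θ₂ ∘ ρ (θ₂⁻¹ * (η * θ₁)) = ρ η ∘ ρ θ₁ := by
          rw [← hρm, ← hρm]
          congr 1
          group
        exact congrFun h4 i
      rw [← h3, h2]
    | inr f =>
      rw [C.val_inr _ g f hl, C.val_inr _ g f hl]
      congr 1
      funext s
      -- the stabilizer
      obtain ⟨S, hS⟩ : ∃ S : Finset (Perm V), ∀ σ, σ ∈ S ↔ EvOn (H \ D) σ :=
        ⟨univ.filter (fun σ => EvOn (H \ D) σ), fun σ => by simp⟩
      have hS1 : (1 : Perm V) ∈ S := by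
        rw [hS]
        exact ⟨fun _ _ => rfl, sign_one⟩
      have hSH : ∀ σ ∈ S, ∀ x, x ∉ H → σ x = x := by
        intro σ hσ x hx
        exact ((hS σ).1 hσ).1 x (fun h => hx (mem_sdiff.1 h).1)
      have hSD : ∀ σ ∈ S, ∀ d ∈ D, σ d = d := by
        intro σ hσ d hd
        exact ((hS σ).1 hσ).1 d (fun h => (mem_sdiff.1 h).2 hd)
      obtain ⟨ext, hext1, hext2⟩ := hext η (D.image θ₁) hD1H hD1k hgood
      obtain ⟨T, hT⟩ : ∃ T, T = (C.kids g).filter (fun p => p.1 = s) := ⟨_, rfl⟩
      have hTm : ∀ p, p ∈ T ↔ p ∈ C.kids g ∧ p.1 = s := by intro p; rw [hT, mem_filter]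
      rw [← hT]
      have hTs : ∀ σ ∈ S, ∀ (x : I → K), T.val.map (fun p => C.val (x ∘ ρ σ) p.2) =
          T.val.map (fun p => C.val x p.2) := by
        intro σ hσ x
        obtain ⟨α, hα, hαg⟩ := hsup σ ((hS σ).1 hσ)
        have himg : T.image (fun p => (p.1, α p.2)) = T := by
          refine eq_of_subset_of_card_le ?_ ?_
          · intro p hp
            rw [mem_image] at hp
            obtain ⟨⟨s', h⟩, hq, rfl⟩ := hp
            rw [hTm] at hq ⊢
            refine ⟨?_, hq.2⟩
            have h1 := (hα.kids g s' h).2 hq.1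
            rwa [hαg] at h1
          · rw [card_image_of_injective]
            rintro ⟨s1, h1⟩ ⟨s2, h2⟩ heq
            have h3 := Prod.ext_iff.1 heq
            exact Prod.ext h3.1 (α.injective h3.2)
        have hmap : T.val.map (fun p => (p.1, α p.2)) = T.val := by
          have h1 := congrArg Finset.val himg
          rw [Finset.image_val, Multiset.dedup_eq_self.2] at h1
          · exact h1
          · refine Multiset.Nodup.map ?_ T.nodup
            rintro ⟨s1, h1⟩ ⟨s2, h2⟩ heq
            have h3 := Prod.ext_iff.1 heq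
            exact Prod.ext h3.1 (α.injective h3.2)
        conv_rhs => rw [← hmap, Multiset.map_map]
        refine Multiset.map_congr rfl ?_
        rintro ⟨s', h⟩ _
        exact (hα.val x (C.rank h + 1) h (Nat.lt_succ_self _)).symm
      -- the bijection of the stabilizer attached to a child
      have key : ∀ p ∈ T, ∀ v : K,
          (S.filter (fun σ => C.val ((A ∘ ρ θ₁) ∘ ρ σ) p.2 = v)).card =
          (S.filter (fun σ => C.val ((B ∘ ρ θ₂) ∘ ρ σ) p.2 = v)).card := by
        rintro ⟨s', h⟩ hp v
        have hrank : C.rank h < n :=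
          (C.rank_lt g _ ((hTm _).1 hp).1).trans_le (Nat.lt_succ_iff.1 hg)
        obtain ⟨E, hEH, hEk, hEsup⟩ := exists_supports C ρ hρ1 hρm H hsym k r hk hr h20 h
        -- the image of a pattern
        obtain ⟨F, hF⟩ : ∃ F : (V → V) → V → V, ∀ f d,
            F f d = θ₂⁻¹ (ext (E.image (fun d => θ₁ (f d))) (θ₁ (f d))) := ⟨_, fun _ _ => rfl⟩
        obtain ⟨pat, hpat⟩ : ∃ pat : Perm V → V → V, ∀ σ d,
            pat σ d = if d ∈ E then σ d else d := ⟨_, fun _ _ => rfl⟩
        have hpatE : ∀ σ, ∀ d ∈ E, pat σ d = σ d := fun σ d hd => by rw [hpat, if_pos hd]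
        have himE : ∀ σ, E.image (fun d => θ₁ (pat σ d)) = E.image (fun d => θ₁ (σ d)) := by
          intro σ
          refine image_congr ?_
          intro d hd
          show θ₁ (pat σ d) = θ₁ (σ d)
          rw [hpatE σ d hd]
        have hFval : ∀ σ, ∀ d ∈ E, F (pat σ) d =
            θ₂⁻¹ (ext (E.image (fun d => θ₁ (σ d))) (θ₁ (σ d))) := by
          intro σ d hd
          rw [hF, himE, hpatE σ d hd]
        have hEi : ∀ σ ∈ S, E.image (fun d => θ₁ (σ d)) ⊆ H ∧
            (E.image (fun d => θ₁ (σ d))).card < k := by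
          intro σ hσ
          refine ⟨?_, card_image_le.trans_lt hEk⟩
          intro x hx
          obtain ⟨d, hd, rfl⟩ := mem_image.1 hx
          apply hθH₁
          by_contra hcon
          have h1 := hSH σ hσ _ hcon
          rw [σ.injective h1] at hcon
          exact hcon (hEH hd)
        have hFD : ∀ σ ∈ S, ∀ d ∈ E, d ∈ D → F (pat σ) d = d := by
          intro σ hσ d hdE hdD
          rw [hFval σ d hdE]
          obtain ⟨hi1, hi2⟩ := hEi σ hσ
          have h1 := (hext1 _ hi1 hi2).2.1 (θ₁ (σ d))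
            (by rw [hSD σ hσ d hdD]; exact mem_image_of_mem _ hdD)
            (mem_image_of_mem (fun d => θ₁ (σ d)) hdE)
          rw [h1, hSD σ hσ d hdD, ← hagree d hdD, pinv_apply]
        have hFnD : ∀ σ ∈ S, ∀ d ∈ E, d ∉ D → F (pat σ) d ∈ H \ D := by
          intro σ hσ d hdE hdD
          rw [hFval σ d hdE]
          obtain ⟨hi1, hi2⟩ := hEi σ hσ
          have hg2 := (hext1 _ hi1 hi2).1
          rw [mem_sdiff]
          constructor
          · apply hθHi₂
            by_contra hcon
            have h1 := hgH _ _ hg2 _ hcon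
            have h2 := (ext _).injective h1
            rw [h2] at hcon
            exact hcon (hi1 (mem_image_of_mem (fun d => θ₁ (σ d)) hdE))
          · intro hmem
            have h1 := (hext1 _ hi1 hi2).2.2 (θ₁ (σ d))
              (mem_image_of_mem (fun d => θ₁ (σ d)) hdE) (by
                intro h2
                obtain ⟨d', hd', h3⟩ := mem_image.1 h2
                have h4 := θ₁.injective h3
                have h5 : σ d' = σ d := by rw [hSD σ hσ d' hd', h4]
                have h6 := σ.injective h5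
                rw [h6] at hd'
                exact hdD hd') (θ₁ (θ₂⁻¹ (ext (E.image (fun d => θ₁ (σ d))) (θ₁ (σ d)))))
              (mem_image_of_mem _ hmem)
            apply h1
            rw [← hagree _ hmem, papply_inv]
        have hFinj : ∀ f : V → V, ∀ d d', F f d = F f d' → f d = f d' := by
          intro f d d' heq
          rw [hF, hF] at heq
          exact θ₁.injective ((ext _).injective ((θ₂⁻¹ : Perm V).injective heq))
        -- an even permutation realising the change of the pattern
        have hτ : ∀ f : V → V, ∃ τ : Perm V, (∃ σ ∈ S, pat σ = f) →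
            EvOn (H \ D) τ ∧ ∀ d ∈ E, τ (f d) = F f d := by
          intro f
          by_cases hf : ∃ σ ∈ S, pat σ = f
          · obtain ⟨σ, hσ, rfl⟩ := hf
            obtain ⟨τ, hτ1, hτ2⟩ := exists_even_ext (H \ D) ((E \ D).image σ)
              (fun x => F (pat σ) (σ⁻¹ x)) (by
                intro x hx
                obtain ⟨d, hd, rfl⟩ := mem_image.1 hx
                rw [mem_sdiff] at hd ⊢
                constructor
                · by_contra hcon
                  have h1 := hSH σ hσ _ hcon
                  rw [σ.injective h1] at hcon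
                  exact hcon (hEH hd.1)
                · intro h2
                  have h3 := hSD σ hσ _ h2
                  rw [σ.injective h3] at h2
                  exact hd.2 h2) (by
                intro x hx
                obtain ⟨d, hd, rfl⟩ := mem_image.1 hx
                rw [mem_sdiff] at hd
                rw [pinv_apply]
                exact hFnD σ hσ d hd.1 hd.2) (by
                intro x hx x' hx' heq
                obtain ⟨d, hd, rfl⟩ := mem_image.1 hx
                obtain ⟨d', hd', rfl⟩ := mem_image.1 hx'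
                rw [mem_sdiff] at hd hd'
                rw [pinv_apply, pinv_apply] at heq
                have h1 := hFinj _ _ _ heq
                rwa [hpatE σ d hd.1, hpatE σ d' hd'.1] at h1) (by
                have h1 : ((E \ D).image σ).card ≤ E.card :=
                  card_image_le.trans (card_le_card sdiff_subset)
                have h2 := le_card_sdiff D H
                omega)
            refine ⟨τ, fun _ => ⟨hτ1, fun d hd => ?_⟩⟩
            rw [hpatE σ d hd]
            by_cases hdD : d ∈ D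
            · rw [hSD σ hσ d hdD, hFD σ hσ d hd hdD]
              exact hτ1.1 d (fun h => (mem_sdiff.1 h).2 hdD)
            · have h1 := hτ2 (σ d) (mem_image_of_mem _ (mem_sdiff.2 ⟨hd, hdD⟩))
              rw [h1, pinv_apply]
          · exact ⟨1, fun h => absurd h hf⟩
        choose τ hτ using hτ
        have hΦS : ∀ σ ∈ S, τ (pat σ) * σ ∈ S := by
          intro σ hσ
          rw [hS]
          exact (hτ (pat σ) ⟨σ, hσ, rfl⟩).1.mul ((hS σ).1 hσ)
        have hΦE : ∀ σ ∈ S, ∀ d ∈ E, (τ (pat σ) * σ) d = F (pat σ) d := by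
          intro σ hσ d hd
          rw [Perm.mul_apply, ← (hτ (pat σ) ⟨σ, hσ, rfl⟩).2 d hd, hpatE σ d hd]
        have hΦinj : ∀ σ ∈ S, ∀ σ' ∈ S, τ (pat σ) * σ = τ (pat σ') * σ' → σ = σ' := by
          intro σ hσ σ' hσ' heq
          have h1 : ∀ d ∈ E, F (pat σ) d = F (pat σ') d := by
            intro d hd
            rw [← hΦE σ hσ d hd, ← hΦE σ' hσ' d hd, heq]
          have h2 : ∀ d ∈ E, ext (E.image (fun d => θ₁ (σ d))) (θ₁ (σ d)) =
              ext (E.image (fun d => θ₁ (σ' d))) (θ₁ (σ' d)) := by
            intro d hd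
            have h3 := h1 d hd
            rw [hFval σ d hd, hFval σ' d hd] at h3
            exact (θ₂⁻¹ : Perm V).injective h3
          have h3 : ext (E.image (fun d => θ₁ (σ d))) = ext (E.image (fun d => θ₁ (σ' d))) := by
            refine hext2 _ _ (hEi σ hσ).1 (hEi σ' hσ').1 (hEi σ hσ).2 (hEi σ' hσ').2 ?_
            rw [image_image, image_image]
            refine image_congr ?_
            intro d hd
            exact h2 d hd
          have h4 : pat σ = pat σ' := by
            funext d
            rw [hpat, hpat]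
            by_cases hd : d ∈ E
            · rw [if_pos hd, if_pos hd]
              have h5 := h2 d hd
              rw [h3] at h5
              exact θ₁.injective ((ext _).injective h5)
            · rw [if_neg hd, if_neg hd]
          rw [h4] at heq
          exact mul_left_cancel heq
        have hval : ∀ σ ∈ S, C.val ((A ∘ ρ θ₁) ∘ ρ σ) h =
            C.val ((B ∘ ρ θ₂) ∘ ρ (τ (pat σ) * σ)) h := by
          intro σ hσ
          obtain ⟨hi1, hi2⟩ := hEi σ hσ
          have h1 := ih h hrank E hEH hEk hEsup (ext (E.image (fun d => θ₁ (σ d)))) (θ₁ * σ)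
            (θ₂ * (τ (pat σ) * σ)) (by
              intro x hx
              rw [Perm.mul_apply, hSH σ hσ x hx, hθ₁ x hx]) (by
              intro x hx
              rw [Perm.mul_apply, hSH _ (hΦS σ hσ) x hx, hθ₂ x hx])
            (by
              have h2 : E.image (θ₁ * σ) = E.image (fun d => θ₁ (σ d)) := rfl
              rw [h2]
              exact (hext1 _ hi1 hi2).1)
            (by
              intro d hd
              rw [Perm.mul_apply, hΦE σ hσ d hd, hFval σ d hd, papply_inv, Perm.mul_apply])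
          rw [hρm, hρm] at h1
          exact h1
        -- compare the two sets
        refine card_bij (fun σ _ => τ (pat σ) * σ) ?_ ?_ ?_
        · intro σ hσ
          rw [mem_filter] at hσ ⊢
          exact ⟨hΦS σ hσ.1, by rw [← hval σ hσ.1]; exact hσ.2⟩
        · intro σ hσ σ' hσ' heq
          exact hΦinj σ (mem_filter.1 hσ).1 σ' (mem_filter.1 hσ').1 heq
        · intro σ' hσ'
          rw [mem_filter] at hσ'
          have himg : S.image (fun σ => τ (pat σ) * σ) = S := by
            refine eq_of_subset_of_card_le ?_ ?_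
            · intro x hx
              obtain ⟨σ, hσ, rfl⟩ := mem_image.1 hx
              exact hΦS σ hσ
            · rw [card_image_of_injOn]
              intro σ hσ σ₂ hσ₂ heq
              exact hΦinj σ hσ σ₂ hσ₂ heq
          have h1 : σ' ∈ S.image (fun σ => τ (pat σ) * σ) := by rw [himg]; exact hσ'.1
          obtain ⟨σ, hσ, rfl⟩ := mem_image.1 h1
          refine ⟨σ, ?_, rfl⟩
          rw [mem_filter]
          exact ⟨hσ, by rw [hval σ hσ]; exact hσ'.2⟩
      -- double counting
      have hcount : ∀ (x : I → K) (v : K),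
          S.card * (T.val.map (fun p => C.val x p.2)).count v =
          ∑ p ∈ T, (S.filter (fun σ => C.val (x ∘ ρ σ) p.2 = v)).card := by
        intro x v
        have h1 : ∑ σ ∈ S, (T.val.map (fun p => C.val (x ∘ ρ σ) p.2)).count v =
            S.card * (T.val.map (fun p => C.val x p.2)).count v := by
          rw [sum_congr rfl (fun σ hσ => by rw [hTs σ hσ x]), sum_const, smul_eq_mul]
        rw [← h1]
        have h2 : ∀ σ, (T.val.map (fun p => C.val (x ∘ ρ σ) p.2)).count v =
            ∑ p ∈ T, if C.val (x ∘ ρ σ) p.2 = v then 1 else 0 := by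
          intro σ
          rw [Multiset.count_map, ← card_filter, Finset.card_def, Finset.filter_val]
          congr 1
          refine Multiset.filter_congr ?_
          intro p _
          exact ⟨fun h => h.symm, fun h => h.symm⟩
        rw [sum_congr rfl (fun σ _ => h2 σ), sum_comm]
        refine sum_congr rfl fun p _ => ?_
        rw [card_filter]
      rw [Multiset.ext]
      intro v
      have h1 := hcount (A ∘ ρ θ₁) v
      have h2 := hcount (B ∘ ρ θ₂) v
      rw [sum_congr rfl (fun p hp => key p hp v), ← h2] at h1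
      exact Nat.eq_of_mul_eq_mul_left (card_pos.2 ⟨1, hS1⟩) h1

end main

end Pool.Agent.T9h47.WH
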