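import Mathlib
import Pool.Agent.T9h47.WH.Net

/-!
# Symmetric networks on graphs
-/

set_option autoImplicit false
set_option linter.unusedSectionVars false

namespace Pool.Agent.T9h47.WH

open Finset Equiv Equiv.Perm
open Pool.Agent.T9h47.SF

variable {V : Type} [Fintype V] [DecidableEq V]

theorem ren_one : Sym2.map (1 : Perm V) = id := Sym2.map_id

theorem ren_mul (σ τ : Perm V) : Sym2.map (σ * τ) = Sym2.map σ ∘ Sym2.map τ := by
  funext i
  induction i with
  | _ a b => rfl

/-- an element which is moved to three places -/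
theorem exists_move {U : Finset V} (hU : 4 ≤ U.card) {a : V} (ha : a ∈ U) (b : V) :
    ∃ σ, EvOn U σ ∧ σ a ≠ a ∧ σ a ≠ b ∧ (b ≠ a → σ b = b) := by
  have h1 : 1 < ((U.erase a).erase b).card := by
    have h2 := card_erase_of_mem ha
    have h3 : (U.erase a).card - 1 ≤ ((U.erase a).erase b).card := pred_card_le_card_erase
    omega
  obtain ⟨c, d, hc, hd, hcd⟩ := one_lt_card_iff.1 h1
  rw [mem_erase, mem_erase] at hc hd
  have hac : a ≠ c := fun h => hc.2.1 h.symm
  have had : a ≠ d := fun h => hd.2.1 h.symm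
  obtain ⟨e1, e2, e3⟩ := cyc_apply hac hcd had
  refine ⟨_, evOn_cyc hac hcd ha hc.2.2 hd.2.2, ?_, ?_, ?_⟩
  · rw [e2]; exact hac.symm
  · rw [e2]; exact hc.1
  · intro hba
    rw [Perm.mul_apply, swap_apply_of_ne_of_ne (fun h => hc.1 h.symm) (fun h => hd.1 h.symm),
      swap_apply_of_ne_of_ne hba (fun h => hc.1 h.symm)]

theorem fixed_pair {U : Finset V} (hU : 4 ≤ U.card) {a b : V}
    (h : ∀ σ, EvOn U σ → Sym2.map σ s(a, b) = s(a, b)) : a ∉ U ∧ b ∉ U := by
  have key : ∀ a b : V, (∀ σ, EvOn U σ → Sym2.map σ s(a, b) = s(a, b)) → a ∉ U := by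
    intro a b h ha
    obtain ⟨σ, h1, h2, h3, h4⟩ := exists_move hU ha b
    have h5 := h σ h1
    rw [Sym2.map_mk, Sym2.eq_iff] at h5
    rcases h5 with ⟨h6, _⟩ | ⟨h6, _⟩
    · exact h2 h6
    · exact h3 h6
  refine ⟨key a b h, key b a ?_⟩
  intro σ hσ
  rw [Sym2.eq_swap]
  exact h σ hσ

theorem input_cond (H : Finset V) (k : ℕ) (h2k : 2 * k + 3 ≤ H.card) :
    ∀ (i : Sym2 V) (D : Finset V), D ⊆ H → D.card < k →
      (∀ σ, EvOn (H \ D) σ → Sym2.map σ i = i) →
      ∀ σ : Perm V, (∀ x, x ∉ H → σ x = x) → (∀ d ∈ D, σ d = d) → Sym2.map σ i = i := by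
  intro i D hD hDk h σ h1 h2
  induction i with
  | _ a b =>
    have hU : 4 ≤ (H \ D).card := by
      have h3 := le_card_sdiff D H
      omega
    obtain ⟨ha, hb⟩ := fixed_pair hU h
    have hfix : ∀ x, x ∉ H \ D → σ x = x := by
      intro x hx
      by_cases hxH : x ∈ H
      · by_cases hxD : x ∈ D
        · exact h2 x hxD
        · exact absurd (mem_sdiff.2 ⟨hxH, hxD⟩) hx
      · exact h1 x hxH
    rw [Sym2.map_mk, hfix a ha, hfix b hb]

/-! ### the threshold -/

theorem sq_le_two_pow (L : ℕ) (h : 6 ≤ L) : (L + 1) ^ 2 ≤ 2 ^ L := by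
  induction L, h using Nat.le_induction with
  | base => norm_num
  | succ n hn ih =>
    rw [pow_succ 2 n]
    nlinarith

theorem log_bound (k h : ℕ) (hh : 2 ^ (20 * k + 6) ≤ h) :
    20 * (k * (Nat.log 2 h + 1)) + 5 ≤ h := by
  have h0 : h ≠ 0 := by
    have : 0 < 2 ^ (20 * k + 6) := by positivity
    omega
  have h1 : 20 * k + 6 ≤ Nat.log 2 h := (Nat.le_log_iff_pow_le (by norm_num) h0).2 hh
  have h2 : 2 ^ Nat.log 2 h ≤ h := Nat.pow_log_le_self 2 h0
  have h3 := sq_le_two_pow (Nat.log 2 h) (by omega)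
  nlinarith

theorem card_lt_pow {G h k : ℕ} (hG : G < h.choose k) : G < 2 ^ (k * (Nat.log 2 h + 1)) := by
  have h1 : h.choose k ≤ h ^ k := Nat.choose_le_pow h k
  have h2 : h ^ k ≤ (2 ^ (Nat.log 2 h + 1)) ^ k :=
    Nat.pow_le_pow_left (Nat.lt_pow_succ_log_self (by norm_num) h).le k
  rw [← pow_mul, mul_comm _ k] at h2
  omega

/-- the indistinguishability theorem for networks on graphs -/
theorem indist_graph {K : Type} (C : Net K (Sym2 V)) (H : Finset V) (hsym : SymOn C H) (k : ℕ)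
    (hk : @Fintype.card C.Gate C.fin < H.card.choose k)
    (hH : 2 ^ (20 * k + 6) ≤ H.card) (b₀ b₁ : K)
    (A B : SimpleGraph V) (Good : Perm V → Finset V → Prop)
    (hgH : ∀ η D, Good η D → ∀ x, x ∉ H → η x = x)
    (hin : ∀ (η : Perm V) (D : Finset V) (a b : V), D ⊆ H → D.card < k → Good η D →
      (a ∈ H → a ∈ D) → (b ∈ H → b ∈ D) → (A.Adj a b ↔ B.Adj (η a) (η b)))
    (hext : ∀ (η : Perm V) (D : Finset V), D ⊆ H → D.card < k → Good η D →
      ∃ ext : Finset V → Perm V, (∀ D' ⊆ H, D'.card < k → Good (ext D') D' ∧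
        (∀ d ∈ D, d ∈ D' → ext D' d = η d) ∧
        (∀ d' ∈ D', d' ∉ D → ∀ d ∈ D, ext D' d' ≠ η d)) ∧
        ∀ D₁ D₂, D₁ ⊆ H → D₂ ⊆ H → D₁.card < k → D₂.card < k →
          D₁.image (ext D₁) = D₂.image (ext D₂) → ext D₁ = ext D₂)
    (g : C.Gate) (D : Finset V) (hDH : D ⊆ H) (hDk : D.card < k)
    (hsup : Supports C (fun σ => Sym2.map σ) H D g) (hgood : Good 1 D) :
    C.val (graphInput b₀ b₁ A) g = C.val (graphInput b₀ b₁ B) g := by
  classical
  have h20 := log_bound k H.card hH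
  have h2k : 2 * k + 3 ≤ H.card := by
    have h1 : 6 ≤ Nat.log 2 H.card := by
      have h0 : H.card ≠ 0 := by
        have : 0 < 2 ^ (20 * k + 6) := by positivity
        omega
      have h2 : 20 * k + 6 ≤ Nat.log 2 H.card := (Nat.le_log_iff_pow_le (by norm_num) h0).2 hH
      omega
    nlinarith
  have key := indist C (fun σ => Sym2.map σ) ren_one ren_mul H hsym k
    (k * (Nat.log 2 H.card + 1)) hk (card_lt_pow hk) h20 h2k (input_cond H k h2k)
    (graphInput b₀ b₁ A) (graphInput b₀ b₁ B) Good hgH (by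
      intro η D i hD hDk hg hfix
      induction i with
      | _ a b =>
        have hU : 4 ≤ (H \ D).card := by
          have h3 := le_card_sdiff D H
          omega
        obtain ⟨ha, hb⟩ := fixed_pair hU hfix
        have h1 := hin η D a b hD hDk hg
          (fun h => by by_contra h'; exact ha (mem_sdiff.2 ⟨h, h'⟩))
          (fun h => by by_contra h'; exact hb (mem_sdiff.2 ⟨h, h'⟩))
        have h2 : s(a, b) ∈ A.edgeSet ↔ s(η a, η b) ∈ B.edgeSet := h1
        unfold graphInput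
        rw [Sym2.map_mk]
        by_cases hab : s(a, b) ∈ A.edgeSet
        · rw [if_pos hab, if_pos (h2.1 hab)]
        · rw [if_neg hab, if_neg (fun h => hab (h2.2 h))])
    hext (C.rank g + 1) g (Nat.lt_succ_self _) D hDH hDk hsup 1 1 1 (fun _ _ => rfl)
    (fun _ _ => rfl)
    (by
      have h1 : D.image (1 : Perm V) = D := by
        ext x
        rw [mem_image]
        constructor
        · rintro ⟨y, hy, rfl⟩
          exact hy
        · intro hx
          exact ⟨x, hx, rfl⟩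
      rw [h1]
      exact hgood)
    (fun _ _ => rfl)
  have h1 : ∀ x : Sym2 V → K, x ∘ Sym2.map (1 : Perm V) = x := by
    intro x
    rw [ren_one]
    rfl
  rw [h1, h1] at key
  exact key

theorem exists_supp_graph {K : Type} (C : Net K (Sym2 V)) (H : Finset V) (hsym : SymOn C H)
    (k : ℕ) (hk : @Fintype.card C.Gate C.fin < H.card.choose k)
    (hH : 2 ^ (20 * k + 6) ≤ H.card) (g : C.Gate) :
    ∃ D ⊆ H, D.card < k ∧ Supports C (fun σ => Sym2.map σ) H D g :=
  exists_supports C (fun σ => Sym2.map σ) ren_one ren_mul H hsym k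
    (k * (Nat.log 2 H.card + 1)) hk (card_lt_pow hk) (log_bound k H.card hH) g

end Pool.Agent.T9h47.WH
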