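import Mathlib
import Pool.Agent.T9h47.WH.Graph

/-!
# Instances of the dominating set problem with hidden parities
-/

set_option autoImplicit false
set_option linter.unusedSectionVars false

namespace Pool.Agent.T9h47.WH

open Finset Equiv Equiv.Perm
open Pool.Agent.T9h47.SF

section str

variable {N : ℕ} {Om : Type} [Fintype Om] [DecidableEq Om]

/-- the elements of the structure: pairs `(e, f)`, triples `(v, ω, b)`, and one for each `e` -/
abbrev Str (N : ℕ) (Om : Type) : Type :=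
  (Sym2 (Fin N) × (Om → ZMod 2)) ⊕ ((Fin N × Om × (Fin N → ZMod 2)) ⊕ Sym2 (Fin N))

/-- the elements which are adjacent to `(e, f)` -/
def Lk (τ : Fin N → Om → Fin N → ZMod 2) (e : Sym2 (Fin N)) (f : Om → ZMod 2) :
    Option (Str N Om) → Prop
  | none => True
  | some (Sum.inl _) => True
  | some (Sum.inr (Sum.inl (v, ω, b))) =>
      (b v = 0 ∧ ∑ w, b w = 1) → ∃ w, w ≠ v ∧ e = s(v, w) ∧ f ω ≠ b w + τ v ω w
  | some (Sum.inr (Sum.inr e')) => e'.IsDiag ∨ e = e'

/-- adjacency in the structure -/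
def AdjO (τ : Fin N → Om → Fin N → ZMod 2) (a b : Option (Str N Om)) : Prop :=
  (∃ e f, a = some (Sum.inl (e, f)) ∧ Lk τ e f b) ∨
    (∃ e f, b = some (Sum.inl (e, f)) ∧ Lk τ e f a)

theorem AdjO.symm {τ : Fin N → Om → Fin N → ZMod 2} {a b : Option (Str N Om)}
    (h : AdjO τ a b) : AdjO τ b a := h.elim Or.inr Or.inl

/-- the shift -/
def shf (s : Sym2 (Fin N) → Om → ZMod 2) (t : Fin N → Om → Fin N → ZMod 2) :
    Str N Om → Str N Om
  | Sum.inl (e, f) => Sum.inl (e, f + s e)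
  | Sum.inr (Sum.inl (v, ω, b)) => Sum.inr (Sum.inl (v, ω, b + t v ω))
  | Sum.inr (Sum.inr e) => Sum.inr (Sum.inr e)

theorem add_add_self {X : Type} (f g : X → ZMod 2) : f + g + g = f := by
  funext x
  rw [Pi.add_apply, Pi.add_apply, add_assoc, CharTwo.add_self_eq_zero, add_zero]

theorem shf_invol (s : Sym2 (Fin N) → Om → ZMod 2) (t : Fin N → Om → Fin N → ZMod 2) :
    Function.Involutive (shf s t) := by
  intro a
  rcases a with ⟨e, f⟩ | ⟨v, ω, b⟩ | e
  · show (Sum.inl (e, f + s e + s e) : Str N Om) = Sum.inl (e, f)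
    rw [add_add_self]
  · show (Sum.inr (Sum.inl (v, ω, b + t v ω + t v ω)) : Str N Om) = Sum.inr (Sum.inl (v, ω, b))
    rw [add_add_self]
  · rfl

/-- the shift as a permutation -/
def sh (s : Sym2 (Fin N) → Om → ZMod 2) (t : Fin N → Om → Fin N → ZMod 2) : Perm (Str N Om) :=
  (shf_invol s t).toPerm

theorem sh_apply (s : Sym2 (Fin N) → Om → ZMod 2) (t : Fin N → Om → Fin N → ZMod 2)
    (a : Str N Om) : sh s t a = shf s t a := rfl

theorem lk_sh (τ : Fin N → Om → Fin N → ZMod 2) (s : Sym2 (Fin N) → Om → ZMod 2)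
    (t : Fin N → Om → Fin N → ZMod 2) (ht : ∀ v ω, t v ω v = 0 ∧ ∑ w, t v ω w = 0)
    (e : Sym2 (Fin N)) (f : Om → ZMod 2) (o : Option (Str N Om))
    (hl : ∀ v ω b, o = some (Sum.inr (Sum.inl (v, ω, b))) → ∀ w, w ≠ v →
      s s(v, w) ω = t v ω w + τ v ω w) :
    Lk 0 e f o ↔ Lk τ e (f + s e) (o.map (shf s t)) := by
  rcases o with _ | ⟨e', f'⟩ | ⟨v, ω, b⟩ | e'
  · exact Iff.rfl
  · exact Iff.rfl
  · have hl' := hl v ω b rfl
    show ((b v = 0 ∧ ∑ w, b w = 1) → ∃ w, w ≠ v ∧ e = s(v, w) ∧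
        f ω ≠ b w + (0 : Fin N → Om → Fin N → ZMod 2) v ω w) ↔
      (((b + t v ω) v = 0 ∧ ∑ w, (b + t v ω) w = 1) → ∃ w, w ≠ v ∧ e = s(v, w) ∧
        (f + s e) ω ≠ (b + t v ω) w + τ v ω w)
    have h1 : (b + t v ω) v = b v := by
      rw [Pi.add_apply, (ht v ω).1, add_zero]
    have h2 : ∑ w, (b + t v ω) w = ∑ w, b w := by
      simp only [Pi.add_apply]
      rw [sum_add_distrib, (ht v ω).2, add_zero]
    rw [h1, h2]
    have h3 : ∀ w, (w ≠ v ∧ e = s(v, w) ∧
        f ω ≠ b w + (0 : Fin N → Om → Fin N → ZMod 2) v ω w) ↔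
        (w ≠ v ∧ e = s(v, w) ∧ (f + s e) ω ≠ (b + t v ω) w + τ v ω w) := by
      intro w
      constructor
      · rintro ⟨hw, he, hf⟩
        refine ⟨hw, he, ?_⟩
        intro heq
        apply hf
        rw [Pi.add_apply, he, hl' w hw, Pi.add_apply] at heq
        have h4 : f ω = b w := by
          have h5 : f ω + (t v ω w + τ v ω w) = b w + (t v ω w + τ v ω w) := by
            rw [heq]; ring
          exact add_right_cancel h5
        rw [h4]
        show b w = b w + 0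
        rw [add_zero]
      · rintro ⟨hw, he, hf⟩
        refine ⟨hw, he, ?_⟩
        intro heq
        apply hf
        have h4 : f ω = b w := by
          rw [heq]
          show b w + 0 = b w
          rw [add_zero]
        rw [Pi.add_apply, he, hl' w hw, Pi.add_apply, h4]
        ring
    exact imp_congr_right fun _ => exists_congr h3
  · exact Iff.rfl

theorem map_inl_iff (s : Sym2 (Fin N) → Om → ZMod 2) (t : Fin N → Om → Fin N → ZMod 2)
    (τ : Fin N → Om → Fin N → ZMod 2) (a b : Option (Str N Om))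
    (h : ∀ e f, Lk 0 e f b ↔ Lk τ e (f + s e) (b.map (shf s t))) :
    (∃ e f, a = some (Sum.inl (e, f)) ∧ Lk 0 e f b) ↔
      ∃ e f, a.map (shf s t) = some (Sum.inl (e, f)) ∧ Lk τ e f (b.map (shf s t)) := by
  constructor
  · rintro ⟨e, f, rfl, h1⟩
    exact ⟨e, f + s e, rfl, (h e f).1 h1⟩
  · rintro ⟨e, f, h1, h2⟩
    rcases a with _ | ⟨e', f'⟩ | ⟨v, ω, b'⟩ | e'
    · exact absurd h1 (by simp)
    · have h3 : (Sum.inl (e', f' + s e') : Str N Om) = Sum.inl (e, f) := Option.some.inj h1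
      have h4 := Sum.inl.inj h3
      have h5 : e' = e := (Prod.ext_iff.1 h4).1
      have h6 : f' + s e' = f := (Prod.ext_iff.1 h4).2
      subst h5
      subst h6
      exact ⟨e', f', rfl, (h e' f').2 h2⟩
    · have h3 : (Sum.inr (Sum.inl (v, ω, b' + t v ω)) : Str N Om) = Sum.inl (e, f) :=
        Option.some.inj h1
      exact absurd h3 (by simp)
    · have h3 : (Sum.inr (Sum.inr e') : Str N Om) = Sum.inl (e, f) := Option.some.inj h1
      exact absurd h3 (by simp)

theorem adjO_sh (τ : Fin N → Om → Fin N → ZMod 2) (s : Sym2 (Fin N) → Om → ZMod 2)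
    (t : Fin N → Om → Fin N → ZMod 2) (ht : ∀ v ω, t v ω v = 0 ∧ ∑ w, t v ω w = 0)
    (a b : Option (Str N Om))
    (ha : ∀ v ω b', a = some (Sum.inr (Sum.inl (v, ω, b'))) → ∀ w, w ≠ v →
      s s(v, w) ω = t v ω w + τ v ω w)
    (hb : ∀ v ω b', b = some (Sum.inr (Sum.inl (v, ω, b'))) → ∀ w, w ≠ v →
      s s(v, w) ω = t v ω w + τ v ω w) :
    AdjO 0 a b ↔ AdjO τ (a.map (shf s t)) (b.map (shf s t)) :=
  or_congr (map_inl_iff s t τ a b (fun e f => lk_sh τ s t ht e f b hb))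
    (map_inl_iff s t τ b a (fun e f => lk_sh τ s t ht e f a ha))

theorem zmod2_cases (a : ZMod 2) : a = 0 ∨ a = 1 := by
  revert a
  decide

theorem sum_pairs (F : Fin N → Fin N → ZMod 2) (hF : ∀ v w, F v w = F w v) :
    ∑ v, ∑ w, (if w = v then 0 else F v w) = 0 := by
  rw [← Fintype.sum_prod_type' (fun v w => if w = v then (0 : ZMod 2) else F v w)]
  refine sum_involution (fun p _ => (p.2, p.1)) ?_ ?_ ?_ ?_
  · rintro ⟨v, w⟩ _
    show (if w = v then (0 : ZMod 2) else F v w) + (if v = w then (0 : ZMod 2) else F w v) = 0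
    by_cases h : w = v
    · rw [if_pos h, if_pos h.symm, add_zero]
    · rw [if_neg h, if_neg (fun h' => h h'.symm), hF w v, CharTwo.add_self_eq_zero]
  · rintro ⟨v, w⟩ _ h1 h2
    apply h1
    have h3 : w = v := (Prod.ext_iff.1 h2).1
    show (if w = v then (0 : ZMod 2) else F v w) = 0
    rw [if_pos h3]
  · rintro ⟨v, w⟩ _
    exact mem_univ _
  · rintro ⟨v, w⟩ _
    rfl

end str

section graph

variable {N : ℕ} {Om : Type} [Fintype Om] [DecidableEq Om]
variable {V : Type} [Fintype V] [DecidableEq V]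

/-- the graph -/
def gr (ι : Str N Om ↪ V) (τ : Fin N → Om → Fin N → ZMod 2) : SimpleGraph V where
  Adj a b := a ≠ b ∧ AdjO τ (Function.partialInv ι a) (Function.partialInv ι b)
  symm := ⟨fun _ _ h => ⟨h.1.symm, h.2.symm⟩⟩
  loopless := ⟨fun _ h => h.1 rfl⟩

theorem pinv_mem (ι : Str N Om ↪ V) (a : Str N Om) : Function.partialInv ι (ι a) = some a :=
  Function.partialInv_left ι.injective a

theorem pinv_nmem (ι : Str N Om ↪ V) (a : V) (h : a ∉ Set.range ι) :
    Function.partialInv ι a = none := by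
  unfold Function.partialInv
  exact dif_neg h

theorem pinv_some (ι : Str N Om ↪ V) (a : V) (x : Str N Om)
    (h : Function.partialInv ι a = some x) : a = ι x := by
  by_cases ha : a ∈ Set.range ι
  · obtain ⟨y, rfl⟩ := ha
    rw [pinv_mem] at h
    rw [Option.some.inj h]
  · rw [pinv_nmem ι a ha] at h
    exact absurd h (by simp)

theorem pinv_via (ι : Str N Om ↪ V) (s : Sym2 (Fin N) → Om → ZMod 2)
    (t : Fin N → Om → Fin N → ZMod 2) (a : V) :
    Function.partialInv ι ((sh s t).viaEmbedding ι a) =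
      (Function.partialInv ι a).map (shf s t) := by
  by_cases ha : a ∈ Set.range ι
  · obtain ⟨y, rfl⟩ := ha
    rw [Perm.viaEmbedding_apply, pinv_mem, pinv_mem]
    rfl
  · rw [Perm.viaEmbedding_apply_of_notMem _ _ _ ha, pinv_nmem ι a ha]
    rfl

/-- the robber at `u` is invisible for `D` -/
def GoodD (ι : Str N Om ↪ V) (τ : Fin N → Om → Fin N → ZMod 2) (ω₁ : Om) (η : Perm V)
    (D : Finset V) : Prop :=
  ∃ (s : Sym2 (Fin N) → Om → ZMod 2) (t : Fin N → Om → Fin N → ZMod 2) (u : Fin N),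
    (∀ v ω, t v ω v = 0 ∧ ∑ w, t v ω w = 0) ∧
    (∀ v ω w, w ≠ v → ¬ (v = u ∧ ω = ω₁) → s s(v, w) ω = t v ω w + τ v ω w) ∧
    (∀ b, ι (Sum.inr (Sum.inl (u, ω₁, b))) ∉ D) ∧ η = (sh s t).viaEmbedding ι

theorem goodD_adj (ι : Str N Om ↪ V) (H : Finset V) (hι : ∀ x, ι x ∈ H)
    (τ : Fin N → Om → Fin N → ZMod 2) (ω₁ : Om) (η : Perm V)
    (D : Finset V) (hg : GoodD ι τ ω₁ η D) (a b : V) (ha : a ∈ H → a ∈ D) (hb : b ∈ H → b ∈ D) :
    (gr ι 0).Adj a b ↔ (gr ι τ).Adj (η a) (η b) := by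
  obtain ⟨s, t, u, h1, h2, h3, rfl⟩ := hg
  have key : ∀ a : V, (a ∈ H → a ∈ D) → ∀ v ω b',
      Function.partialInv ι a = some (Sum.inr (Sum.inl (v, ω, b'))) → ∀ w, w ≠ v →
      s s(v, w) ω = t v ω w + τ v ω w := by
    intro a ha v ω b' hab w hw
    have h4 := pinv_some ι a _ hab
    refine h2 v ω w hw ?_
    rintro ⟨rfl, rfl⟩
    apply h3 b'
    rw [← h4]
    apply ha
    rw [h4]
    exact hι _
  show (a ≠ b ∧ _) ↔ (_ ≠ _ ∧ _)
  rw [pinv_via, pinv_via, ← adjO_sh τ s t h1 _ _ (key a ha) (key b hb)]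
  refine and_congr_left fun _ => ?_
  exact ((sh s t).viaEmbedding ι).injective.ne_iff.symm

/-- the touched vertices -/
def Ty (ι : Str N Om ↪ V) (ω₁ : Om) (D : Finset V) : Finset (Fin N) :=
  univ.filter (fun v => ∃ b, ι (Sum.inr (Sum.inl (v, ω₁, b))) ∈ D)

theorem mem_Ty (ι : Str N Om ↪ V) (ω₁ : Om) (D : Finset V) (v : Fin N) :
    v ∈ Ty ι ω₁ D ↔ ∃ b, ι (Sum.inr (Sum.inl (v, ω₁, b))) ∈ D := by
  unfold Ty
  rw [mem_filter]
  exact ⟨fun h => h.2, fun h => ⟨mem_univ _, h⟩⟩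

theorem card_Ty (ι : Str N Om ↪ V) (ω₁ : Om) (D : Finset V) : (Ty ι ω₁ D).card ≤ D.card := by
  have h : ∀ v, ∃ b, v ∈ Ty ι ω₁ D → ι (Sum.inr (Sum.inl (v, ω₁, b))) ∈ D := by
    intro v
    by_cases hv : v ∈ Ty ι ω₁ D
    · obtain ⟨b, hb⟩ := (mem_Ty ι ω₁ D v).1 hv
      exact ⟨b, fun _ => hb⟩
    · exact ⟨0, fun h => absurd h hv⟩
  choose b hb using h
  refine card_le_card_of_injOn (fun v => ι (Sum.inr (Sum.inl (v, ω₁, b v)))) ?_ ?_
  · intro v hv
    exact hb v hv
  · intro v _ w _ hvw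
    have h1 := ι.injective hvw
    exact (Prod.ext_iff.1 (Sum.inl.inj (Sum.inr.inj h1))).1

theorem Ty_image (ι : Str N Om ↪ V) (ω₁ : Om) (s : Sym2 (Fin N) → Om → ZMod 2)
    (t : Fin N → Om → Fin N → ZMod 2) (D : Finset V) :
    Ty ι ω₁ (D.image ((sh s t).viaEmbedding ι)) = Ty ι ω₁ D := by
  ext v
  rw [mem_Ty, mem_Ty]
  constructor
  · rintro ⟨b, hb⟩
    obtain ⟨d, hd, hdb⟩ := mem_image.1 hb
    refine ⟨b + t v ω₁, ?_⟩
    have h1 : (sh s t).viaEmbedding ι (ι (Sum.inr (Sum.inl (v, ω₁, b + t v ω₁)))) =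
        ι (Sum.inr (Sum.inl (v, ω₁, b))) := by
      rw [Perm.viaEmbedding_apply, sh_apply]
      show ι (Sum.inr (Sum.inl (v, ω₁, b + t v ω₁ + t v ω₁))) = _
      rw [add_add_self]
    rw [← h1] at hdb
    rw [← ((sh s t).viaEmbedding ι).injective hdb]
    exact hd
  · rintro ⟨b, hb⟩
    refine ⟨b + t v ω₁, ?_⟩
    have h1 : (sh s t).viaEmbedding ι (ι (Sum.inr (Sum.inl (v, ω₁, b)))) =
        ι (Sum.inr (Sum.inl (v, ω₁, b + t v ω₁))) := by
      rw [Perm.viaEmbedding_apply, sh_apply]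
      rfl
    rw [← h1]
    exact mem_image_of_mem _ hb

theorem card_Tz (ι : Str N Om ↪ V) (u : Fin N) (D : Finset V) (T : Finset (Fin N))
    (hT : ∀ w ∈ T, ∃ f, ι (Sum.inl (s(u, w), f)) ∈ D) : T.card ≤ D.card := by
  have h : ∀ v, ∃ f, v ∈ T → ι (Sum.inl (s(u, v), f)) ∈ D := by
    intro v
    by_cases hv : v ∈ T
    · obtain ⟨b, hb⟩ := hT v hv
      exact ⟨b, fun _ => hb⟩
    · exact ⟨0, fun h => absurd h hv⟩
  choose b hb using h
  refine card_le_card_of_injOn (fun v => ι (Sum.inl (s(u, v), b v))) ?_ ?_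
  · intro v hv
    exact hb v hv
  · intro v _ w _ hvw
    have h1 := (Prod.ext_iff.1 (Sum.inl.inj (ι.injective hvw))).1
    exact Sym2.congr_right.1 h1

theorem goodD_ext (ι : Str N Om ↪ V) (H : Finset V)
    (τ : Fin N → Om → Fin N → ZMod 2) (ω₁ : Om) (hτ0 : ∀ v ω, τ v ω v = 0)
    (hτ1 : ∑ v, ∑ w, τ v ω₁ w = 1) (k : ℕ) (hN : 2 * k ≤ N) (η : Perm V)
    (D : Finset V) (hDk : D.card < k) (hg : GoodD ι τ ω₁ η D) :
    ∃ ext : Finset V → Perm V, (∀ D' ⊆ H, D'.card < k → GoodD ι τ ω₁ (ext D') D' ∧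
        (∀ d ∈ D, d ∈ D' → ext D' d = η d) ∧
        (∀ d' ∈ D', d' ∉ D → ∀ d ∈ D, ext D' d' ≠ η d)) ∧
        ∀ D₁ D₂, D₁ ⊆ H → D₂ ⊆ H → D₁.card < k → D₂.card < k →
          D₁.image (ext D₁) = D₂.image (ext D₂) → ext D₁ = ext D₂ := by
  classical
  obtain ⟨s, t, u, h1, h2, h3, rfl⟩ := hg
  -- the new shifts
  obtain ⟨s', hs'⟩ : ∃ s' : Fin N → Sym2 (Fin N) → Om → ZMod 2, ∀ u' e ω,
      s' u' e ω = s e ω + (if e = s(u, u') ∧ ω = ω₁ then 1 else 0) := ⟨_, fun _ _ _ => rfl⟩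
  obtain ⟨t', ht'⟩ : ∃ t' : Fin N → Fin N → Om → Fin N → ZMod 2, ∀ u' v ω w,
      t' u' v ω w = if v = u ∧ ω = ω₁ then (if w = u then 0 else s' u' s(u, w) ω₁ + τ u ω₁ w)
        else t v ω w := ⟨_, fun _ _ _ _ => rfl⟩
  -- the parity at `u`
  have hpar : ∑ w, (if w = u then 0 else s s(u, w) ω₁) = 1 + ∑ w, τ u ω₁ w := by
    have h4 := sum_pairs (fun v w => s s(v, w) ω₁) (fun v w => by rw [Sym2.eq_swap])
    rw [← add_sum_erase _ _ (mem_univ u)] at h4
    rw [← add_sum_erase _ _ (mem_univ u)] at hτ1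
    have h5 : ∀ v ∈ univ.erase u, ∑ w, (if w = v then 0 else s s(v, w) ω₁) =
        ∑ w, τ v ω₁ w := by
      intro v hv
      have hvu : v ≠ u := (mem_erase.1 hv).1
      have h6 : ∀ w, (if w = v then 0 else s s(v, w) ω₁) = t v ω₁ w + τ v ω₁ w := by
        intro w
        by_cases hw : w = v
        · rw [if_pos hw, hw, (h1 v ω₁).1, hτ0, add_zero]
        · rw [if_neg hw]
          exact h2 v ω₁ w hw (fun h => hvu h.1)
      rw [sum_congr rfl (fun w _ => h6 w), sum_add_distrib, (h1 v ω₁).2, zero_add]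
    rw [sum_congr rfl h5] at h4
    have h6 : ∑ x ∈ univ.erase u, ∑ w, τ x ω₁ w = 1 - ∑ w, τ u ω₁ w := by
      rw [← hτ1]; ring
    rw [h6] at h4
    have h7 : ∑ w, (if w = u then 0 else s s(u, w) ω₁) = -(1 - ∑ w, τ u ω₁ w) := by
      rw [← add_eq_zero_iff_eq_neg]; exact h4
    rw [h7, ZMod.neg_eq_self_mod_two]
    rw [sub_eq_add_neg, ZMod.neg_eq_self_mod_two]
  -- the choice of the new vertex
  obtain ⟨pick, hpick⟩ : ∃ pick : Finset (Fin N) → Fin N, ∀ T : Finset (Fin N), T.card < k →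
      pick T ≠ u ∧ pick T ∉ T ∧ ∀ f, ι (Sum.inl (s(u, pick T), f)) ∉ D := by
    have h4 : ∀ T : Finset (Fin N), ∃ u', T.card < k →
        u' ≠ u ∧ u' ∉ T ∧ ∀ f, ι (Sum.inl (s(u, u'), f)) ∉ D := by
      intro T
      by_cases hT : T.card < k
      · have h5 : ((univ.filter (fun w => ∃ f, ι (Sum.inl (s(u, w), f)) ∈ D)) ∪ T ∪
            {u}).card < N := by
          have h6 := card_Tz ι u D (univ.filter (fun w => ∃ f, ι (Sum.inl (s(u, w), f)) ∈ D))
            (fun w hw => (mem_filter.1 hw).2)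
          have h7 := card_union_le ((univ.filter (fun w => ∃ f, ι (Sum.inl (s(u, w), f)) ∈ D)) ∪ T)
            {u}
          have h8 := card_union_le (univ.filter (fun w => ∃ f, ι (Sum.inl (s(u, w), f)) ∈ D)) T
          rw [card_singleton] at h7
          omega
        obtain ⟨u', hu'⟩ : ∃ u' : Fin N, u' ∉ (univ.filter (fun w => ∃ f,
            ι (Sum.inl (s(u, w), f)) ∈ D)) ∪ T ∪ {u} := by
          by_contra hcon
          push Not at hcon
          have h6 : (univ.filter (fun w => ∃ f, ι (Sum.inl (s(u, w), f)) ∈ D)) ∪ T ∪ {u} =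
              univ := by
            ext x
            exact ⟨fun _ => mem_univ _, fun _ => hcon x⟩
          rw [h6, card_univ, Fintype.card_fin] at h5
          exact lt_irrefl _ h5
        rw [mem_union, mem_union, mem_singleton, not_or, not_or, mem_filter] at hu'
        refine ⟨u', fun _ => ⟨hu'.2, hu'.1.2, fun f hf => hu'.1.1 ⟨mem_univ _, f, hf⟩⟩⟩
      · exact ⟨u, fun h => absurd h hT⟩
    choose pick hpick using h4
    exact ⟨pick, hpick⟩
  obtain ⟨ext, hext⟩ : ∃ ext : Finset V → Perm V, ∀ D', ext D' =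
      if u ∈ Ty ι ω₁ D' then (sh (s' (pick (Ty ι ω₁ D'))) (t' (pick (Ty ι ω₁ D')))).viaEmbedding ι
      else (sh s t).viaEmbedding ι := ⟨_, fun _ => rfl⟩
  -- agreement on `D`
  have hagree : ∀ T : Finset (Fin N), T.card < k → ∀ d ∈ D,
      (sh (s' (pick T)) (t' (pick T))).viaEmbedding ι d = (sh s t).viaEmbedding ι d := by
    intro T hT d hd
    obtain ⟨_, _, h5⟩ := hpick T hT
    by_cases hr : d ∈ Set.range ι
    · obtain ⟨x, rfl⟩ := hr
      rw [Perm.viaEmbedding_apply, Perm.viaEmbedding_apply]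
      congr 1
      rw [sh_apply, sh_apply]
      rcases x with ⟨e, f⟩ | ⟨v, ω, b⟩ | e
      · show (Sum.inl (e, f + s' (pick T) e) : Str N Om) = Sum.inl (e, f + s e)
        have h6 : s' (pick T) e = s e := by
          funext ω
          rw [hs', if_neg, add_zero]
          rintro ⟨rfl, _⟩
          exact h5 f hd
        rw [h6]
      · show (Sum.inr (Sum.inl (v, ω, b + t' (pick T) v ω)) : Str N Om) =
          Sum.inr (Sum.inl (v, ω, b + t v ω))
        have h6 : t' (pick T) v ω = t v ω := by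
          funext w
          rw [ht', if_neg]
          rintro ⟨rfl, rfl⟩
          exact h3 b hd
        rw [h6]
      · rfl
    · rw [Perm.viaEmbedding_apply_of_notMem _ _ _ hr, Perm.viaEmbedding_apply_of_notMem _ _ _ hr]
  refine ⟨ext, ?_, ?_⟩
  · intro D' _ hD'k
    have hTk : (Ty ι ω₁ D').card < k := (card_Ty ι ω₁ D').trans_lt hD'k
    have hag : ∀ d ∈ D, ext D' d = (sh s t).viaEmbedding ι d := by
      intro d hd
      rw [hext]
      by_cases hu : u ∈ Ty ι ω₁ D'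
      · rw [if_pos hu]
        exact hagree _ hTk d hd
      · rw [if_neg hu]
    refine ⟨?_, fun d hd _ => hag d hd, ?_⟩
    · rw [hext]
      by_cases hu : u ∈ Ty ι ω₁ D'
      · rw [if_pos hu]
        obtain ⟨u', hu'⟩ : ∃ u', u' = pick (Ty ι ω₁ D') := ⟨_, rfl⟩
        rw [← hu']
        obtain ⟨h4, h5, h6⟩ := hpick (Ty ι ω₁ D') hTk
        rw [← hu'] at h4 h5 h6
        refine ⟨s' u', t' u', u', ?_, ?_, ?_, rfl⟩
        · intro v ω
          by_cases hv : v = u ∧ ω = ω₁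
          · obtain ⟨rfl, rfl⟩ := hv
            constructor
            · rw [ht', if_pos ⟨rfl, rfl⟩, if_pos rfl]
            · have h7 : ∀ w, t' u' v ω w = (if w = v then 0 else s s(v, w) ω) +
                  (if w = u' then 1 else 0) + τ v ω w := by
                intro w
                rw [ht', if_pos ⟨rfl, rfl⟩]
                by_cases hw : w = v
                · rw [if_pos hw, if_pos hw, hw, hτ0, if_neg (fun h => h4 h.symm)]
                  ring
                · rw [if_neg hw, if_neg hw, hs']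
                  congr 2
                  by_cases hw' : w = u'
                  · rw [if_pos ⟨by rw [hw'], rfl⟩, if_pos hw']
                  · rw [if_neg (fun h => hw' (Sym2.congr_right.1 h.1)), if_neg hw']
              rw [sum_congr rfl (fun w _ => h7 w), sum_add_distrib, sum_add_distrib, hpar,
                sum_ite_eq' univ u', if_pos (mem_univ _)]
              have h8 : ∀ a : ZMod 2, 1 + a + 1 + a = 0 := by decide
              exact h8 _
          · refine ⟨by rw [ht', if_neg hv]; exact (h1 v ω).1, ?_⟩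
            have h7 : ∀ w, t' u' v ω w = t v ω w := fun w => by rw [ht', if_neg hv]
            rw [sum_congr rfl (fun w _ => h7 w)]
            exact (h1 v ω).2
        · intro v ω w hw hvu'
          by_cases hv : v = u ∧ ω = ω₁
          · obtain ⟨rfl, rfl⟩ := hv
            rw [ht', if_pos ⟨rfl, rfl⟩, if_neg hw, add_assoc, CharTwo.add_self_eq_zero, add_zero]
          · rw [ht', if_neg hv, hs', if_neg, add_zero]
            · exact h2 v ω w hw hv
            · rintro ⟨h7, rfl⟩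
              have h8 : v ∈ s(u, u') := by rw [← h7]; exact Sym2.mem_mk_left _ _
              rcases Sym2.mem_iff.1 h8 with h9 | h9
              · exact hv ⟨h9, rfl⟩
              · exact hvu' ⟨h9, rfl⟩
        · intro b hb
          exact h5 ((mem_Ty ι ω₁ D' u').2 ⟨b, hb⟩)
      · rw [if_neg hu]
        refine ⟨s, t, u, h1, h2, ?_, rfl⟩
        intro b hb
        exact hu ((mem_Ty ι ω₁ D' u).2 ⟨b, hb⟩)
    · intro d' _ hd'D d hd heq
      rw [← hag d hd] at heq
      rw [(ext D').injective heq] at hd'D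
      exact hd'D hd
  · intro D₁ D₂ _ _ _ _ himg
    have hTi : ∀ D', Ty ι ω₁ (D'.image (ext D')) = Ty ι ω₁ D' := by
      intro D'
      rw [hext]
      by_cases hu : u ∈ Ty ι ω₁ D'
      · rw [if_pos hu]
        exact Ty_image ι ω₁ _ _ D'
      · rw [if_neg hu]
        exact Ty_image ι ω₁ _ _ D'
    have h4 : Ty ι ω₁ D₁ = Ty ι ω₁ D₂ := by
      rw [← hTi D₁, ← hTi D₂, himg]
    rw [hext, hext, h4]

end graph

end Pool.Agent.T9h47.WH
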