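import Mathlib
import Pool.Agent.T9h47.WH.Dom

/-!
# Dominating sets and the lower bound
-/

set_option autoImplicit false
set_option linter.unusedSectionVars false

namespace Pool.Agent.T9h47.WH

open Finset Equiv Equiv.Perm
open Pool.Agent.T9h47.SF

variable {N : ℕ} {Om : Type} [Fintype Om] [DecidableEq Om]
variable {V : Type} [Fintype V] [DecidableEq V]

theorem dom_yes (ι : Str N Om ↪ V) (hN : 2 ≤ N) :
    ∃ S : Finset V, S.card ≤ N.choose 2 ∧ Dominates (gr ι 0) S := by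
  classical
  obtain ⟨S, hS⟩ : ∃ S : Finset V, S = (univ : Finset {e : Sym2 (Fin N) // ¬ e.IsDiag}).image
    (fun e => ι (Sum.inl (e.1, 0))) := ⟨_, rfl⟩
  have hmem : ∀ e : Sym2 (Fin N), ¬ e.IsDiag → ι (Sum.inl (e, 0)) ∈ S := by
    intro e he
    rw [hS, mem_image]
    exact ⟨⟨e, he⟩, mem_univ _, rfl⟩
  refine ⟨S, ?_, ?_⟩
  · rw [hS]
    refine card_image_le.trans ?_
    rw [card_univ, Sym2.card_subtype_not_diag, Fintype.card_fin]
  · have hadj : ∀ (e : Sym2 (Fin N)) (a : V), Lk 0 e 0 (Function.partialInv ι a) →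
        ι (Sum.inl (e, 0)) = a ∨ (gr ι 0).Adj (ι (Sum.inl (e, 0))) a := by
      intro e a h
      by_cases h1 : ι (Sum.inl (e, 0)) = a
      · exact Or.inl h1
      · right
        refine ⟨h1, Or.inl ⟨e, 0, ?_, h⟩⟩
        rw [pinv_mem]
    obtain ⟨e₀, he₀⟩ : ∃ e₀ : Sym2 (Fin N), ¬ e₀.IsDiag := by
      refine ⟨s(⟨0, by omega⟩, ⟨1, by omega⟩), ?_⟩
      rw [Sym2.mk_isDiag_iff, Fin.mk.injEq]
      norm_num
    intro a
    rcases ha : Function.partialInv ι a with _ | ⟨e, f⟩ | ⟨v, ω, b⟩ | e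
    · exact ⟨_, hmem e₀ he₀, hadj e₀ a (by rw [ha]; exact trivial)⟩
    · exact ⟨_, hmem e₀ he₀, hadj e₀ a (by rw [ha]; exact trivial)⟩
    · by_cases hb : b v = 0 ∧ ∑ w, b w = 1
      · obtain ⟨w, hw⟩ : ∃ w, b w ≠ 0 := by
          by_contra hcon
          push Not at hcon
          rw [sum_congr rfl (fun w _ => hcon w), sum_const_zero] at hb
          exact absurd hb.2 (by decide)
        have hwv : w ≠ v := fun h => hw (h ▸ hb.1)
        refine ⟨_, hmem s(v, w) (by rw [Sym2.mk_isDiag_iff]; exact fun h => hwv h.symm),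
          hadj _ a ?_⟩
        rw [ha]
        intro _
        refine ⟨w, hwv, rfl, ?_⟩
        show (0 : ZMod 2) ≠ b w + 0
        rw [add_zero]
        exact fun h => hw h.symm
      · exact ⟨_, hmem e₀ he₀, hadj e₀ a (by rw [ha]; exact fun h => absurd h hb)⟩
    · by_cases he : e.IsDiag
      · exact ⟨_, hmem e₀ he₀, hadj e₀ a (by rw [ha]; exact Or.inl he)⟩
      · exact ⟨_, hmem e he, hadj e a (by rw [ha]; exact Or.inr rfl)⟩

/-- the class of an element -/
def cls (a : Option (Str N Om)) : Option (Sym2 (Fin N)) :=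
  match a with
  | none => none
  | some (Sum.inl (e, _)) => some e
  | some (Sum.inr (Sum.inl _)) => none
  | some (Sum.inr (Sum.inr e)) => some e

theorem dom_no (ι : Str N Om ↪ V) (τ : Fin N → Om → Fin N → ZMod 2) (ω₁ : Om)
    (hτ0 : ∀ v, τ v ω₁ v = 0) (hτ1 : ∑ v, ∑ w, τ v ω₁ w = 1) (S : Finset V)
    (hS : S.card ≤ N.choose 2) : ¬ Dominates (gr ι τ) S := by
  classical
  intro hD
  -- every class is hit
  have hhit : ∀ e : {e : Sym2 (Fin N) // ¬ e.IsDiag}, ∃ w ∈ S,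
      cls (Function.partialInv ι w) = some e.1 := by
    rintro ⟨e, he⟩
    obtain ⟨w, hw, h1⟩ := hD (ι (Sum.inr (Sum.inr e)))
    refine ⟨w, hw, ?_⟩
    rcases h1 with rfl | ⟨_, h1⟩
    · rw [pinv_mem]; rfl
    · rw [pinv_mem] at h1
      rcases h1 with ⟨e', f, h2, h3⟩ | ⟨e', f, h2, _⟩
      · rcases h3 with h4 | h4
        · exact absurd h4 he
        · rw [h2, h4]; rfl
      · exact absurd (Option.some.inj h2) (by simp)
  choose g hg1 hg2 using hhit
  have hginj : Function.Injective g := by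
    intro e e' h
    apply Subtype.ext
    have h1 := hg2 e
    rw [h, hg2 e'] at h1
    exact (Option.some.inj h1).symm
  have himg : (univ : Finset {e : Sym2 (Fin N) // ¬ e.IsDiag}).image g = S := by
    refine eq_of_subset_of_card_le ?_ ?_
    · intro x hx
      obtain ⟨e, _, rfl⟩ := mem_image.1 hx
      exact hg1 e
    · rw [card_image_of_injective _ hginj, card_univ, Sym2.card_subtype_not_diag,
        Fintype.card_fin]
      exact hS
  have hSg : ∀ w ∈ S, ∃ e, g e = w := by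
    intro w hw
    rw [← himg] at hw
    obtain ⟨e, _, h⟩ := mem_image.1 hw
    exact ⟨e, h⟩
  have huniq : ∀ w ∈ S, ∀ w' ∈ S,
      cls (Function.partialInv ι w) = cls (Function.partialInv ι w') → w = w' := by
    intro w hw w' hw' h
    obtain ⟨e, rfl⟩ := hSg w hw
    obtain ⟨e', rfl⟩ := hSg w' hw'
    rw [hg2, hg2] at h
    rw [Subtype.ext (Option.some.inj h)]
  -- the chosen vectors
  obtain ⟨f, hf⟩ : ∃ f : Sym2 (Fin N) → Om → ZMod 2, ∀ e f', ι (Sum.inl (e, f')) ∈ S →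
      f' = f e := by
    have h1 : ∀ e, ∃ f : Om → ZMod 2, ∀ f', ι (Sum.inl (e, f')) ∈ S → f' = f := by
      intro e
      by_cases h : ∃ f', ι (Sum.inl (e, f')) ∈ S
      · obtain ⟨f', hf'⟩ := h
        refine ⟨f', fun f'' hf'' => ?_⟩
        have h2 := huniq _ hf'' _ hf' (by rw [pinv_mem, pinv_mem]; rfl)
        exact (Prod.ext_iff.1 (Sum.inl.inj (ι.injective h2))).2
      · exact ⟨0, fun f' hf' => absurd ⟨f', hf'⟩ h⟩
    choose f hf using h1
    exact ⟨f, hf⟩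
  have hpar : ∀ v, ∑ w, (if w = v then 0 else f s(v, w) ω₁) = ∑ w, τ v ω₁ w := by
    intro v
    by_contra hne
    obtain ⟨b, hb⟩ : ∃ b : Fin N → ZMod 2, ∀ w, b w =
      (if w = v then 0 else f s(v, w) ω₁) + τ v ω₁ w := ⟨_, fun _ => rfl⟩
    have hb1 : b v = 0 := by rw [hb, if_pos rfl, hτ0, add_zero]
    have hb2 : ∑ w, b w = 1 := by
      rw [sum_congr rfl (fun w _ => hb w), sum_add_distrib]
      have h1 : ∀ a b : ZMod 2, a ≠ b → a + b = 1 := by decide
      exact h1 _ _ hne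
    obtain ⟨x, hx, h1⟩ := hD (ι (Sum.inr (Sum.inl (v, ω₁, b))))
    rcases h1 with rfl | ⟨_, h1⟩
    · obtain ⟨e, he⟩ := hSg _ hx
      have h2 := hg2 e
      rw [he, pinv_mem] at h2
      exact absurd h2 (by simp [cls])
    · rw [pinv_mem] at h1
      rcases h1 with ⟨e', f', h2, h3⟩ | ⟨e', f', h2, _⟩
      · obtain ⟨w, hwv, he, hfw⟩ := h3 ⟨hb1, hb2⟩
        have hx2 := pinv_some ι x _ h2
        rw [hx2] at hx
        have h4 := hf e' f' hx
        apply hfw
        rw [hb, if_neg hwv, h4, he, add_assoc, CharTwo.add_self_eq_zero, add_zero]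
      · exact absurd (Option.some.inj h2) (by simp)
  have h1 := sum_pairs (fun v w => f s(v, w) ω₁) (fun v w => by rw [Sym2.eq_swap])
  rw [sum_congr rfl (fun v _ => hpar v), hτ1] at h1
  exact absurd h1 (by decide)

/-- **The lower bound.** -/
theorem dom_lower (k m : ℕ) (hk : 1 ≤ k) : ∃ h₀ : ℕ, ∀ (V : Type) [Fintype V] [DecidableEq V]
    (H : Finset V), h₀ ≤ H.card → ∀ (K : Type) (C : Net K (Sym2 V)) (b₀ b₁ : K)
    (𝒮 : Set (Finset (C.Gate × K))), SymOn C H → (∀ P ∈ 𝒮, P.card ≤ m) →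
    (∀ G : SimpleGraph V, (∃ P ∈ 𝒮, ∀ q ∈ P, C.val (graphInput b₀ b₁ G) q.1 = q.2) ↔
      ∃ S : Finset V, S.card ≤ (2 * k).choose 2 ∧ Dominates G S) →
    H.card.choose k ≤ @Fintype.card C.Gate C.fin := by
  classical
  refine ⟨max (2 ^ (20 * k + 6)) (Fintype.card (Str (2 * k) (Fin (m * k + 1)))), ?_⟩
  intro V _ _ H hH K C b₀ b₁ 𝒮 hsym h𝒮 hdec
  by_contra hlt
  rw [not_le] at hlt
  have hH1 : 2 ^ (20 * k + 6) ≤ H.card := (le_max_left _ _).trans hH
  have hH2 : Fintype.card (Str (2 * k) (Fin (m * k + 1))) ≤ H.card := (le_max_right _ _).trans hH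
  -- the embedding
  obtain ⟨ι, hι⟩ : ∃ ι : Str (2 * k) (Fin (m * k + 1)) ↪ V, ∀ x, ι x ∈ H := by
    obtain ⟨φ⟩ : Nonempty (Str (2 * k) (Fin (m * k + 1)) ↪ {x // x ∈ H}) :=
      Function.Embedding.nonempty_of_card_le (by rw [Fintype.card_coe]; exact hH2)
    exact ⟨φ.trans (Function.Embedding.subtype _), fun x => (φ x).2⟩
  -- the supports
  choose D hD1 hD2 hD3 using fun g => exists_supp_graph C H hsym k hlt hH1 g
  -- the accepting certificate
  obtain ⟨P, hP, hPA⟩ := (hdec (gr ι 0)).2 (dom_yes ι (by omega))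
  -- a coordinate which is not touched
  obtain ⟨oc, hoc⟩ : ∃ oc : Option (Str (2 * k) (Fin (m * k + 1))) → Option (Fin (m * k + 1)),
      ∀ v ω b, oc (some (Sum.inr (Sum.inl (v, ω, b)))) = some ω :=
    ⟨fun a => match a with
      | some (Sum.inr (Sum.inl (_, ω, _))) => some ω
      | _ => none, fun _ _ _ => rfl⟩
  obtain ⟨W, hW⟩ : ∃ W : Finset (Option (Fin (m * k + 1))), W = P.biUnion (fun q =>
    (D q.1).image (fun a => oc (Function.partialInv ι a))) := ⟨_, rfl⟩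
  have hWcard : W.card ≤ m * k := by
    rw [hW]
    refine (card_biUnion_le_card_mul P _ k ?_).trans (Nat.mul_le_mul_right _ (h𝒮 P hP))
    intro q _
    exact card_image_le.trans (hD2 q.1).le
  obtain ⟨ω₁, hω₁⟩ : ∃ ω₁ : Fin (m * k + 1), some ω₁ ∉ W := by
    by_contra hcon
    push Not at hcon
    have h1 : (univ.map Function.Embedding.some : Finset (Option (Fin (m * k + 1)))) ⊆ W := by
      intro x hx
      obtain ⟨ω, _, rfl⟩ := mem_map.1 hx
      exact hcon ω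
    have h2 := card_le_card h1
    rw [card_map, card_univ, Fintype.card_fin] at h2
    omega
  have hfree : ∀ q ∈ P, ∀ v b, ι (Sum.inr (Sum.inl (v, ω₁, b))) ∉ D q.1 := by
    intro q hq v b hmem
    apply hω₁
    rw [hW, mem_biUnion]
    refine ⟨q, hq, mem_image.2 ⟨_, hmem, ?_⟩⟩
    rw [pinv_mem, hoc]
  -- the twisted instance
  obtain ⟨v₀, hv₀⟩ : ∃ v₀ : Fin (2 * k), v₀ = ⟨0, by omega⟩ := ⟨_, rfl⟩
  obtain ⟨w₀, hw₀⟩ : ∃ w₀ : Fin (2 * k), w₀ = ⟨1, by omega⟩ := ⟨_, rfl⟩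
  have hvw : w₀ ≠ v₀ := by
    rw [hv₀, hw₀]
    intro h
    rw [Fin.mk.injEq] at h
    exact absurd h (by norm_num)
  obtain ⟨τ, hτ⟩ : ∃ τ : Fin (2 * k) → Fin (m * k + 1) → Fin (2 * k) → ZMod 2,
      ∀ v ω w, τ v ω w = if v = v₀ ∧ ω = ω₁ then (if w = w₀ then 1 else 0) else 0 :=
    ⟨_, fun _ _ _ => rfl⟩
  have hτ0 : ∀ v ω, τ v ω v = 0 := by
    intro v ω
    rw [hτ]
    by_cases h : v = v₀ ∧ ω = ω₁
    · rw [if_pos h, if_neg (fun h' => hvw (h'.symm.trans h.1))]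
    · rw [if_neg h]
  have hτ1 : ∑ v, ∑ w, τ v ω₁ w = 1 := by
    rw [sum_eq_single v₀]
    · rw [sum_congr rfl (fun w _ => by rw [hτ, if_pos ⟨rfl, rfl⟩]), sum_ite_eq' univ w₀,
        if_pos (mem_univ _)]
    · intro v _ hv
      refine sum_eq_zero fun w _ => ?_
      rw [hτ, if_neg (fun h => hv h.1)]
    · intro h
      exact absurd (mem_univ _) h
  -- the certificate is accepted
  have hPB : ∀ q ∈ P, C.val (graphInput b₀ b₁ (gr ι τ)) q.1 = q.2 := by
    intro q hq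
    rw [← hPA q hq]
    symm
    refine indist_graph C H hsym k hlt hH1 b₀ b₁ (gr ι 0) (gr ι τ) (GoodD ι τ ω₁) ?_ ?_ ?_
      q.1 (D q.1) (hD1 q.1) (hD2 q.1) (hD3 q.1) ?_
    · rintro η D' ⟨s, t, u, _, _, _, rfl⟩ x hx
      refine Perm.viaEmbedding_apply_of_notMem _ _ _ ?_
      rintro ⟨y, rfl⟩
      exact hx (hι y)
    · intro η D' a b _ _ hg ha hb
      exact goodD_adj ι H hι τ ω₁ η D' hg a b ha hb
    · intro η D' _ hD'k hg
      exact goodD_ext ι H τ ω₁ hτ0 hτ1 k le_rfl η D' hD'k hg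
    · refine ⟨0, 0, v₀, fun v ω => ⟨rfl, ?_⟩, ?_, fun b => hfree q hq v₀ b, ?_⟩
      · show ∑ w : Fin (2 * k), (0 : ZMod 2) = 0
        exact sum_const_zero
      · intro v ω w hw hne
        rw [hτ, if_neg hne]
        show (0 : ZMod 2) = 0 + 0
        rw [add_zero]
      · apply Equiv.ext
        intro x
        by_cases hx : x ∈ Set.range ι
        · obtain ⟨y, rfl⟩ := hx
          rw [Perm.viaEmbedding_apply, sh_apply, Perm.one_apply]
          congr 1
          rcases y with ⟨e, f⟩ | ⟨v, ω, b⟩ | e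
          · show (Sum.inl (e, f) : Str (2 * k) (Fin (m * k + 1))) = Sum.inl (e, f + 0)
            rw [add_zero]
          · show (Sum.inr (Sum.inl (v, ω, b)) : Str (2 * k) (Fin (m * k + 1))) =
              Sum.inr (Sum.inl (v, ω, b + 0))
            rw [add_zero]
          · rfl
        · rw [Perm.viaEmbedding_apply_of_notMem _ _ _ hx, Perm.one_apply]
  obtain ⟨S, hS1, hS2⟩ := (hdec (gr ι τ)).1 ⟨P, hP, hPB⟩
  exact dom_no ι τ ω₁ (fun v => hτ0 v ω₁) hτ1 S hS1 hS2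

end Pool.Agent.T9h47.WH
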